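import Pool.Agent.H95R2.Leh.Omega
import Pool.Agent.W125.EC.Tot

/-!
# Lehmer numbers in short intervals
-/

set_option autoImplicit false

namespace Pool.Agent.Y928.LS

open Finset
open Pool.Agent.H95R2.Leh

/-- a set of integers in `(x, x + y]` in one class mod `M` -/
lemma card_short (M x y : ℕ) (hM : 0 < M) (S : Finset ℕ) (hS : ∀ n ∈ S, x < n ∧ n ≤ x + y)
    (hc : ∀ n ∈ S, ∀ n' ∈ S, n ≡ n' [MOD M]) : S.card ≤ y / M + 1 := by
  classical
  have hinj : Set.InjOn (fun n : ℕ => n - x) S := by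
    intro n hn n' hn' h
    have h1 := hS n hn
    have h2 := hS n' hn'
    simp only at h
    omega
  rw [← Finset.card_image_of_injOn hinj]
  apply Omega.card_congr_le M y hM
  · intro m hm
    rw [mem_image] at hm
    obtain ⟨n, hn, rfl⟩ := hm
    have := hS n hn
    omega
  · intro m hm m' hm'
    rw [mem_image] at hm hm'
    obtain ⟨n, hn, rfl⟩ := hm
    obtain ⟨n', hn', rfl⟩ := hm'
    have h1 := hS n hn
    have h2 := hS n' hn'
    have h3 := hc n hn n' hn'
    apply Nat.ModEq.add_left_cancel' x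
    rw [Nat.add_sub_cancel' h1.1.le, Nat.add_sub_cancel' h2.1.le]
    exact h3

open Classical in
/-- Lehmer numbers divisible by `e` in `(x, x + y]` -/
lemma multiples_short (x y e : ℕ) (he : 1 ≤ e) :
    (((Finset.Ioc x (x + y)).filter (fun n => Leh n ∧ e ∣ n)).card : ℝ) ≤
      (y : ℝ) / (e * Nat.totient e) + 1 := by
  by_cases hem : ((Finset.Ioc x (x + y)).filter (fun n => Leh n ∧ e ∣ n)) = ∅
  · rw [hem]
    simp only [Finset.card_empty, Nat.cast_zero]
    positivity
  · obtain ⟨n0, hn0⟩ := Finset.nonempty_iff_ne_empty.mpr hem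
    obtain ⟨_, hl0, hd0⟩ := Finset.mem_filter.mp hn0
    have hcop : Nat.Coprime e (Nat.totient e) :=
      Nat.Coprime.coprime_dvd_left hd0 (Nat.Coprime.coprime_dvd_right
        (Nat.totient_dvd_of_dvd hd0) (leh_basic hl0).2.2)
    have hM : 0 < e * Nat.totient e := Nat.mul_pos (by omega) (Nat.totient_pos.mpr (by omega))
    have hmod : ∀ n ∈ (Finset.Ioc x (x + y)).filter (fun n => Leh n ∧ e ∣ n),
        n ≡ 0 [MOD e] ∧ n ≡ 1 [MOD (Nat.totient e)] := by
      intro n hn
      obtain ⟨h1, hl, hd⟩ := Finset.mem_filter.mp hn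
      refine ⟨(Nat.modEq_zero_iff_dvd).mpr hd, ?_⟩
      have h2 : Nat.totient e ∣ n - 1 := (Nat.totient_dvd_of_dvd hd).trans hl.2.2
      exact ((Nat.modEq_iff_dvd' (by have := (Finset.mem_Ioc.mp h1).1; omega)).mpr h2).symm
    have h := card_short (e * Nat.totient e) x y hM
      ((Finset.Ioc x (x + y)).filter (fun n => Leh n ∧ e ∣ n))
      (fun n hn => Finset.mem_Ioc.mp (Finset.mem_filter.mp hn).1)
      (fun n hn n' hn' => (Nat.modEq_and_modEq_iff_modEq_mul hcop).mp
        ⟨(hmod n hn).1.trans (hmod n' hn').1.symm, (hmod n hn).2.trans (hmod n' hn').2.symm⟩)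
    have h2 : ((y / (e * Nat.totient e) : ℕ) : ℝ) ≤ (y : ℝ) / ((e * Nat.totient e : ℕ) : ℝ) :=
      Nat.cast_div_le
    have h3 : (((Finset.Ioc x (x + y)).filter (fun n => Leh n ∧ e ∣ n)).card : ℝ) ≤
        ((y / (e * Nat.totient e) + 1 : ℕ) : ℝ) := by exact_mod_cast h
    push_cast at h2 h3
    linarith

/-- the tail of `∑ 1 / (d φ(d))` -/
lemma tail_sum : ∃ C : ℝ, 1 ≤ C ∧ ∀ k u N : ℕ, 1 ≤ u → N ≤ u + k →
    ∑ d ∈ Ioc u N, 1 / ((d : ℝ) * Nat.totient d) ≤ 4 * C / u := by
  obtain ⟨C, hC, h⟩ := Pool.Agent.W125.EC.avg_le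
  refine ⟨C, hC, ?_⟩
  have hpart : ∀ u N : ℕ, 1 ≤ u → N ≤ 2 * u →
      ∑ d ∈ Ioc u N, 1 / ((d : ℝ) * Nat.totient d) ≤ 2 * C / u := by
    intro u N hu hN
    have huR : (0 : ℝ) < u := by exact_mod_cast hu
    calc ∑ d ∈ Ioc u N, 1 / ((d : ℝ) * Nat.totient d) ≤
        ∑ d ∈ Ioc u N, (1 / (u : ℝ) ^ 2) * ((d : ℝ) / Nat.totient d) := by
          refine Finset.sum_le_sum fun d hd => ?_
          rw [mem_Ioc] at hd
          have hdR : (u : ℝ) ≤ d := by exact_mod_cast hd.1.le
          have hd0 : (0 : ℝ) < d := by linarith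
          have ht : (0 : ℝ) < Nat.totient d := by
            exact_mod_cast Nat.totient_pos.2 (by omega)
          rw [div_mul_div_comm, one_mul, div_le_div_iff₀ (by positivity) (by positivity)]
          have h1 : (u : ℝ) ^ 2 ≤ (d : ℝ) ^ 2 := pow_le_pow_left₀ huR.le hdR 2
          nlinarith [mul_le_mul_of_nonneg_right h1 ht.le]
      _ = (1 / (u : ℝ) ^ 2) * ∑ d ∈ Ioc u N, ((d : ℝ) / Nat.totient d) := by rw [Finset.mul_sum]
      _ ≤ (1 / (u : ℝ) ^ 2) * ∑ d ∈ Icc 1 N, ((d : ℝ) / Nat.totient d) := by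
          apply mul_le_mul_of_nonneg_left _ (by positivity)
          apply Finset.sum_le_sum_of_subset_of_nonneg
          · intro d hd
            rw [mem_Ioc] at hd
            rw [mem_Icc]
            omega
          · intro d _ _
            positivity
      _ ≤ (1 / (u : ℝ) ^ 2) * (C * N) := mul_le_mul_of_nonneg_left (h N) (by positivity)
      _ ≤ (1 / (u : ℝ) ^ 2) * (C * (2 * u)) := by
          have : (N : ℝ) ≤ 2 * u := by exact_mod_cast hN
          gcongr
      _ = 2 * C / u := by field_simp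
  intro k
  induction k using Nat.strong_induction_on with
  | _ k ih =>
    intro u N hu hN
    have huR : (0 : ℝ) < u := by exact_mod_cast hu
    rcases le_or_gt N (2 * u) with h1 | h1
    · refine (hpart u N hu h1).trans ?_
      gcongr
      norm_num
    · have h2 := hpart u (2 * u) hu le_rfl
      have h3 := ih (k - u) (by omega) (2 * u) N (by omega) (by omega)
      have h4 : ∑ d ∈ Ioc u N, 1 / ((d : ℝ) * Nat.totient d) =
          ∑ d ∈ Ioc u (2 * u), 1 / ((d : ℝ) * Nat.totient d) +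
          ∑ d ∈ Ioc (2 * u) N, 1 / ((d : ℝ) * Nat.totient d) :=
        (Finset.sum_Ioc_consecutive _ (by omega) (by omega)).symm
      rw [h4]
      push_cast at h3
      have h5 : 4 * C / (2 * (u : ℝ)) = 2 * C / u := by field_simp; ring
      have h6 : 4 * C / (u : ℝ) = 2 * C / u + 2 * C / u := by ring
      rw [h5] at h3
      rw [h6]
      exact add_le_add h2 h3

open Classical in
/-- **Lehmer numbers in short intervals.** -/
theorem short : ∃ C : ℝ, 1 ≤ C ∧ ∀ x y K : ℕ, 1 ≤ y → 1 ≤ K →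
    (((Ioc x (x + y)).filter (fun n => Leh n ∧ n.primeFactors.card ≤ K)).card : ℝ) ≤
      C * Real.sqrt (y * K) := by
  obtain ⟨C, hC, htail⟩ := tail_sum
  refine ⟨200 * C, by linarith, ?_⟩
  intro x y K hy hK
  have hyR : (1 : ℝ) ≤ y := by exact_mod_cast hy
  have hKR : (1 : ℝ) ≤ K := by exact_mod_cast hK
  obtain ⟨z, hz⟩ : ∃ z : ℝ, z = Real.sqrt (y * K) := ⟨_, rfl⟩
  rw [← hz]
  have hz1 : 1 ≤ z := by
    rw [hz]
    exact Real.le_sqrt_of_sq_le (by nlinarith)
  have hzz : z * z = y * K := by rw [hz]; exact Real.mul_self_sqrt (by positivity)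
  obtain ⟨Z, hZ⟩ : ∃ Z : ℕ, Z = ⌊z⌋₊ := ⟨_, rfl⟩
  have hZz : (Z : ℝ) ≤ z := by rw [hZ]; exact Nat.floor_le (by linarith)
  obtain ⟨D, hD⟩ : ∃ D : Finset ℕ, D = (Icc 1 Z).filter (fun d : ℕ => z / (16 * K) < (d : ℝ)) := ⟨_, rfl⟩
  -- the covering
  have hcov : (Ioc x (x + y)).filter (fun n => Leh n ∧ n.primeFactors.card ≤ K) ⊆
      Icc 1 Z ∪ D.biUnion (fun d => (Ioc x (x + y)).filter (fun n => Leh n ∧ d ∣ n)) := by
    intro n hn
    obtain ⟨h1, h2, h3⟩ := mem_filter.mp hn
    rw [mem_union]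
    by_cases hnz : n ≤ Z
    · left
      rw [mem_Icc]
      exact ⟨h2.1.le, hnz⟩
    · right
      push Not at hnz
      have hzn : z ≤ n := by
        rw [hZ, Nat.floor_lt (by linarith)] at hnz
        exact hnz.le
      obtain ⟨k, hk2, hk, -⟩ := leh_k h2
      have hF := fam_leh n k K (by omega) hKR
      have hst : StL n k K n (2 * n) := ⟨n, h2, by have := h2.1; omega, le_rfl, hk,
        by exact_mod_cast h3, Or.inr ⟨rfl, rfl⟩⟩
      obtain ⟨d, hdn, hd1, hd2⟩ := dense hF hst hz1 hzn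
      rw [mem_biUnion]
      have hdpos : 1 ≤ d := Nat.pos_of_dvd_of_pos hdn (by have := h2.1; omega)
      refine ⟨d, ?_, ?_⟩
      · rw [hD, mem_filter, mem_Icc]
        exact ⟨⟨hdpos, by rw [hZ]; exact Nat.le_floor hd2⟩, hd1⟩
      · rw [mem_filter]
        exact ⟨h1, h2, hdn⟩
  have hcard : (((Ioc x (x + y)).filter (fun n => Leh n ∧ n.primeFactors.card ≤ K)).card : ℝ) ≤
      Z + ∑ d ∈ D, ((y : ℝ) / (d * Nat.totient d) + 1) := by
    have h1 := (card_le_card hcov).trans (card_union_le _ _)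
    have h2 : ((D.biUnion (fun d => (Ioc x (x + y)).filter (fun n => Leh n ∧ d ∣ n))).card : ℝ) ≤
        ∑ d ∈ D, ((y : ℝ) / (d * Nat.totient d) + 1) := by
      calc ((D.biUnion (fun d => (Ioc x (x + y)).filter (fun n => Leh n ∧ d ∣ n))).card : ℝ) ≤
          ((∑ d ∈ D, ((Ioc x (x + y)).filter (fun n => Leh n ∧ d ∣ n)).card : ℕ) : ℝ) := by
            exact_mod_cast card_biUnion_le
        _ = ∑ d ∈ D, (((Ioc x (x + y)).filter (fun n => Leh n ∧ d ∣ n)).card : ℝ) := by push_cast; rfl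
        _ ≤ _ := by
            refine Finset.sum_le_sum fun d hd => ?_
            rw [hD, mem_filter, mem_Icc] at hd
            exact multiples_short x y d hd.1.1
    have h3 : (((Ioc x (x + y)).filter (fun n => Leh n ∧ n.primeFactors.card ≤ K)).card : ℝ) ≤
        ((Icc 1 Z).card : ℝ) +
        ((D.biUnion (fun d => (Ioc x (x + y)).filter (fun n => Leh n ∧ d ∣ n))).card : ℝ) := by
      exact_mod_cast h1
    rw [Nat.card_Icc, Nat.add_sub_cancel] at h3
    linarith
  rw [Finset.sum_add_distrib, Finset.sum_const, nsmul_eq_mul, mul_one] at hcard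
  have hDcard : (D.card : ℝ) ≤ Z := by
    have : D.card ≤ (Icc 1 Z).card := by rw [hD]; exact card_filter_le _ _
    rw [Nat.card_Icc, Nat.add_sub_cancel] at this
    exact_mod_cast this
  have hsum : ∑ d ∈ D, (y : ℝ) / (d * Nat.totient d) ≤ 160 * C * z := by
    have e1 : ∑ d ∈ D, (y : ℝ) / (d * Nat.totient d) = y * ∑ d ∈ D, 1 / ((d : ℝ) * Nat.totient d) := by
      rw [Finset.mul_sum]
      refine Finset.sum_congr rfl fun d _ => ?_
      ring
    have hsum2 : ∑ d ∈ D, 1 / ((d : ℝ) * Nat.totient d) ≤ 160 * C * K / z := by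
      obtain ⟨u, hu⟩ : ∃ u : ℕ, u = ⌊z / (16 * K)⌋₊ := ⟨_, rfl⟩
      have hu1 : z / (16 * K) < u + 1 := by rw [hu]; exact Nat.lt_floor_add_one _
      have hsub : D ⊆ Ioc u Z := by
        intro d hd
        rw [hD, mem_filter, mem_Icc] at hd
        rw [mem_Ioc]
        refine ⟨?_, hd.1.2⟩
        rw [hu, Nat.floor_lt (by positivity)]
        exact hd.2
      have h1 : ∑ d ∈ D, 1 / ((d : ℝ) * Nat.totient d) ≤
          ∑ d ∈ Ioc u Z, 1 / ((d : ℝ) * Nat.totient d) :=
        Finset.sum_le_sum_of_subset_of_nonneg hsub (fun _ _ _ => by positivity)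
      refine h1.trans ?_
      rcases Nat.eq_zero_or_pos u with h0 | hpos
      · rw [h0] at hu1 ⊢
        have h2 : ∑ d ∈ Ioc (0 : ℕ) Z, 1 / ((d : ℝ) * Nat.totient d) ≤ 1 + 4 * C := by
          rcases Nat.eq_zero_or_pos Z with hZ0 | hZpos
          · rw [hZ0]
            simp only [Ioc_self, sum_empty]
            linarith
          · rw [← Finset.sum_Ioc_consecutive _ (Nat.zero_le 1) hZpos]
            have h3 := htail Z 1 Z le_rfl (by omega)
            simp only [Nat.cast_one, div_one] at h3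
            have h4 : ∑ d ∈ Ioc (0 : ℕ) 1, 1 / ((d : ℝ) * Nat.totient d) = 1 := by
              rw [show Ioc (0 : ℕ) 1 = {1} by rfl, sum_singleton]
              simp
            rw [h4]
            linarith
        refine h2.trans ?_
        rw [le_div_iff₀ (by linarith)]
        rw [div_lt_iff₀ (by positivity)] at hu1
        push_cast at hu1
        have h3 : z ≤ 16 * K := by linarith
        nlinarith
      · have h2 := htail Z u Z hpos (by omega)
        refine h2.trans ?_
        have huR : (1 : ℝ) ≤ u := by exact_mod_cast hpos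
        rw [div_le_div_iff₀ (by linarith) (by linarith)]
        rw [div_lt_iff₀ (by positivity)] at hu1
        have h3 : z ≤ 32 * K * u := by nlinarith
        nlinarith [mul_le_mul_of_nonneg_left h3 (by linarith : 0 ≤ 4 * C)]
    rw [e1]
    calc (y : ℝ) * ∑ d ∈ D, 1 / ((d : ℝ) * Nat.totient d) ≤ y * (160 * C * K / z) :=
          mul_le_mul_of_nonneg_left hsum2 (by linarith)
      _ = 160 * C * (z * z) / z := by rw [hzz]; ring
      _ = 160 * C * z := by field_simp
  nlinarith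

end Pool.Agent.Y928.LS
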